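import Mathlib

/-!
# The congruences `(1 + X) ^ n = 1 + X ^ n` modulo `n` and `X ^ r - 1`: lemmas
-/

set_option autoImplicit false

open Polynomial

namespace Pool.Agent.J6H83.AK

/-! ### The sum of the values of Euler's function -/

/-- the sum of the values of Euler's function -/
def Phi (x : ℕ) : ℕ := ∑ m ∈ Finset.Icc 1 x, Nat.totient m

theorem Phi_succ (x : ℕ) : Phi (x + 1) = Phi x + Nat.totient (x + 1) := by
  unfold Phi
  rw [Finset.sum_Icc_succ_top (by omega)]

theorem sum_Phi_div (M : ℕ) : 2 * ∑ j ∈ Finset.Icc 1 M, Phi (M / j) = M * (M + 1) := by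
  induction M with
  | zero => simp
  | succ M ih =>
    have h1 : ∀ j ∈ Finset.Icc 1 (M + 1), Phi ((M + 1) / j) =
        Phi (M / j) + if j ∣ M + 1 then Nat.totient ((M + 1) / j) else 0 := by
      intro j _
      rw [Nat.succ_div]
      split_ifs with h
      · rw [Phi_succ]
      · simp
    rw [Finset.sum_congr rfl h1, Finset.sum_add_distrib, Finset.sum_Icc_succ_top (by omega)]
    have h2 : Phi (M / (M + 1)) = 0 := by
      rw [Nat.div_eq_of_lt (by omega)]
      simp [Phi]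
    have h3 : ∑ j ∈ Finset.Icc 1 (M + 1), (if j ∣ M + 1 then Nat.totient ((M + 1) / j) else 0) =
        M + 1 := by
      rw [← Finset.sum_filter]
      have h4 : (Finset.Icc 1 (M + 1)).filter (fun j => j ∣ M + 1) = (M + 1).divisors := by
        ext j
        simp only [Finset.mem_filter, Finset.mem_Icc, Nat.mem_divisors]
        constructor
        · rintro ⟨_, h⟩
          exact ⟨h, by omega⟩
        · rintro ⟨h, _⟩
          exact ⟨⟨Nat.pos_of_dvd_of_pos h (by omega), Nat.le_of_dvd (by omega) h⟩, h⟩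
      rw [h4, Nat.sum_div_divisors (M + 1) Nat.totient, Nat.sum_totient]
    rw [h2, h3, add_zero, mul_add, ih]
    ring

theorem two_Phi_le (x : ℕ) : 2 * Phi x ≤ x ^ 2 + 1 := by
  induction x with
  | zero => simp [Phi]
  | succ x ih =>
    rw [Phi_succ]
    rcases Nat.eq_zero_or_pos x with rfl | hx
    · simp [Phi]
    · have h : Nat.totient (x + 1) ≤ x := by
        have := Nat.totient_lt (x + 1) (by omega)
        omega
      nlinarith

theorem sq_le_six_Phi (M : ℕ) : M ^ 2 ≤ 6 * Phi M := by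
  rcases Nat.eq_zero_or_pos M with rfl | hM
  · simp
  have h1 := sum_Phi_div M
  have h2 : Finset.Icc 1 M = insert 1 (Finset.Icc 2 M) := by
    ext j
    simp only [Finset.mem_Icc, Finset.mem_insert]
    omega
  rw [h2, Finset.sum_insert (by simp), Nat.div_one] at h1
  have h3 : ∀ j ∈ Finset.Icc 2 M, (2 * Phi (M / j) : ℝ) ≤
      (M : ℝ) ^ 2 * (1 / ((j : ℝ) - 1 / 2) - 1 / ((j : ℝ) + 1 / 2)) + 1 := by
    intro j hj
    rw [Finset.mem_Icc] at hj
    have h4 : (2 * Phi (M / j) : ℝ) ≤ ((M / j : ℕ) : ℝ) ^ 2 + 1 := by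
      exact_mod_cast two_Phi_le (M / j)
    have hj' : (2 : ℝ) ≤ j := by exact_mod_cast hj.1
    have h5 : ((M / j : ℕ) : ℝ) ≤ (M : ℝ) / j := Nat.cast_div_le
    have h6 : ((M / j : ℕ) : ℝ) ^ 2 ≤ ((M : ℝ) / j) ^ 2 :=
      pow_le_pow_left₀ (Nat.cast_nonneg _) h5 2
    have h7 : ((M : ℝ) / j) ^ 2 ≤ (M : ℝ) ^ 2 * (1 / ((j : ℝ) - 1 / 2) - 1 / ((j : ℝ) + 1 / 2)) := by
      rw [div_pow, div_eq_mul_inv]
      refine mul_le_mul_of_nonneg_left ?_ (by positivity)
      have h8 : (0 : ℝ) < (j : ℝ) - 1 / 2 := by linarith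
      have h9 : (0 : ℝ) < (j : ℝ) + 1 / 2 := by linarith
      rw [div_sub_div _ _ h8.ne' h9.ne', inv_eq_one_div, div_le_div_iff₀ (by positivity)
        (by positivity)]
      nlinarith
    linarith
  have h4 := Finset.sum_le_sum h3
  have h5 : ∀ N : ℕ, 1 ≤ N → ∑ j ∈ Finset.Icc 2 N, (1 / ((j : ℝ) - 1 / 2) - 1 / ((j : ℝ) + 1 / 2)) =
      2 / 3 - 1 / ((N : ℝ) + 1 / 2) := by
    intro N hN
    induction N, hN using Nat.le_induction with
    | base => norm_num
    | succ N hN ih =>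
      rw [Finset.sum_Icc_succ_top (by omega), ih]
      push_cast
      have : ((N : ℝ) + 1 - 1 / 2) = (N : ℝ) + 1 / 2 := by ring
      rw [this]
      ring
  rw [Finset.sum_add_distrib, ← Finset.mul_sum, ← Finset.mul_sum, h5 M hM] at h4
  simp only [Finset.sum_const, Nat.card_Icc, nsmul_eq_mul, mul_one] at h4
  have h6 : ((M + 1 - 2 : ℕ) : ℝ) = (M : ℝ) - 1 := by
    have : M + 1 - 2 = M - 1 := by omega
    rw [this, Nat.cast_sub hM, Nat.cast_one]
  rw [h6] at h4
  have h7 : (2 * (Phi M + ∑ j ∈ Finset.Icc 2 M, Phi (M / j)) : ℝ) = (M : ℝ) * (M + 1) := by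
    exact_mod_cast h1
  push_cast at h7
  have h8 : (0 : ℝ) < 1 / ((M : ℝ) + 1 / 2) := by positivity
  have h9 : (M : ℝ) ^ 2 * (2 / 3 - 1 / ((M : ℝ) + 1 / 2)) ≤ (M : ℝ) ^ 2 * (2 / 3) := by
    apply mul_le_mul_of_nonneg_left _ (by positivity)
    linarith
  have h10 : (M : ℝ) ^ 2 ≤ 6 * Phi M := by nlinarith
  exact_mod_cast h10

/-! ### From the polynomial congruence to roots of unity -/

/-- a divisibility modulo `n` of the images of integral polynomials, at a root of the divisor -/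
theorem eval_dvd {n r : ℕ} (h : ((X : (ZMod n)[X]) ^ r - 1) ∣ (1 + X) ^ n - (1 + X ^ n))
    {A : Type} [CommRing A] {z : A} (hz : z ^ r = 1) : (n : A) ∣ (1 + z) ^ n - (1 + z ^ n) := by
  obtain ⟨v, hv⟩ := h
  obtain ⟨V, rfl⟩ := Polynomial.map_surjective (Int.castRingHom (ZMod n)) ZMod.intCast_surjective v
  have h1 : (((1 + X) ^ n - (1 + X ^ n) - (X ^ r - 1) * V : ℤ[X]).map
      (Int.castRingHom (ZMod n))) = 0 := by
    simp only [Polynomial.map_sub, Polynomial.map_mul, Polynomial.map_pow, Polynomial.map_add,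
      Polynomial.map_one, Polynomial.map_X]
    rw [hv]
    ring
  have h2 : C (n : ℤ) ∣ ((1 + X) ^ n - (1 + X ^ n) - (X ^ r - 1) * V : ℤ[X]) := by
    rw [Polynomial.C_dvd_iff_dvd_coeff]
    intro i
    rw [← ZMod.intCast_zmod_eq_zero_iff_dvd]
    have := congrArg (fun P => Polynomial.coeff P i) h1
    simpa only [Polynomial.coeff_map, Polynomial.coeff_zero, eq_intCast] using this
  obtain ⟨U, hU⟩ := h2
  have h3 := congrArg (Polynomial.aeval z) hU
  simp only [map_sub, map_mul, map_pow, map_add, map_one, aeval_X, hz, sub_self, zero_mul,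
    sub_zero, map_natCast] at h3
  exact ⟨_, h3⟩

/-- the product over the `q`-th roots of unity -/
theorem step {A : Type} [CommRing A] [IsDomain A] {n q m : ℕ} {w : A} (hw : IsPrimitiveRoot w q)
    (hq : Odd q) (hqn : q ∣ n)
    (h1 : ((X : (ZMod n)[X]) ^ m - 1) ∣ (1 + X) ^ n - (1 + X ^ n))
    (h2 : ((X : (ZMod n)[X]) ^ (m * q) - 1) ∣ (1 + X) ^ n - (1 + X ^ n))
    {z : A} (hz : z ^ m = 1) : (n : A) ∣ (1 + z ^ n) ^ q - (1 + (z ^ n) ^ q) := by
  classical
  set I : Ideal A := Ideal.span {(n : A)} with hI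
  have key : ∀ a b : A, (n : A) ∣ a - b ↔ Ideal.Quotient.mk I a = Ideal.Quotient.mk I b := by
    intro a b
    rw [Ideal.Quotient.eq, hI, Ideal.mem_span_singleton]
  have hroots : ∀ ω ∈ nthRootsFinset q (1 : A), ω ^ q = 1 := by
    intro ω hω
    exact (mem_nthRootsFinset hq.pos 1).1 hω
  have h3 : ∀ ω ∈ nthRootsFinset q (1 : A),
      Ideal.Quotient.mk I ((1 + ω * z) ^ n) = Ideal.Quotient.mk I (1 + z ^ n) := by
    intro ω hω
    have h4 : (ω * z) ^ (m * q) = 1 := by
      rw [mul_pow, mul_comm m q, pow_mul, hroots ω hω, one_pow, mul_comm q m, pow_mul, hz, one_pow,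
        one_mul]
    have h5 := (key _ _).1 (eval_dvd h2 h4)
    rw [h5, mul_pow]
    obtain ⟨k, rfl⟩ := hqn
    rw [pow_mul ω, hroots ω hω, one_pow, one_mul]
  have h6 : 1 + z ^ q = ∏ ω ∈ nthRootsFinset q (1 : A), (1 + ω * z) := by
    have := hw.pow_add_pow_eq_prod_add_mul 1 z hq
    rwa [one_pow] at this
  have h7 : Ideal.Quotient.mk I ((1 + z ^ q) ^ n) = Ideal.Quotient.mk I ((1 + z ^ n) ^ q) := by
    rw [h6, ← Finset.prod_pow, map_prod, Finset.prod_congr rfl h3, Finset.prod_const,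
      hw.card_nthRootsFinset, map_pow]
  have h8 : (z ^ q) ^ m = 1 := by
    rw [← pow_mul, mul_comm, pow_mul, hz, one_pow]
  have h9 := (key _ _).1 (eval_dvd h1 h8)
  rw [key, ← h7, h9, ← pow_mul, ← pow_mul, mul_comm]

/-! ### The polynomial `((1 + X) ^ q - 1 - X ^ q) / q` -/

theorem exists_g {q : ℕ} (hq : q.Prime) (hq2 : q ≠ 2) : ∃ g : ℤ[X], g.Monic ∧ g.natDegree = q - 1 ∧
    g.coeff 0 = 0 ∧ C (q : ℤ) * g = (1 + X) ^ q - (1 + X ^ q) := by
  have h1 : C (q : ℤ) ∣ ((1 + X) ^ q - (1 + X ^ q) : ℤ[X]) := by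
    rw [Polynomial.C_dvd_iff_dvd_coeff]
    intro i
    rw [← ZMod.intCast_zmod_eq_zero_iff_dvd]
    have hfact : Fact q.Prime := ⟨hq⟩
    have h2 : (((1 + X) ^ q - (1 + X ^ q) : ℤ[X]).map (Int.castRingHom (ZMod q))) = 0 := by
      simp only [Polynomial.map_sub, Polynomial.map_pow, Polynomial.map_add,
        Polynomial.map_one, Polynomial.map_X]
      rw [add_pow_char, one_pow, sub_self]
    have := congrArg (fun P => Polynomial.coeff P i) h2
    simpa only [Polynomial.coeff_map, Polynomial.coeff_zero, eq_intCast] using this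
  obtain ⟨g, hg⟩ := h1
  have hq0 : (q : ℤ) ≠ 0 := by exact_mod_cast hq.ne_zero
  have hq3 : 3 ≤ q := by
    have := hq.two_le
    omega
  have hc : ∀ i, (q : ℤ) * g.coeff i =
      (Nat.choose q i : ℤ) - ((if i = 0 then 1 else 0) + if i = q then 1 else 0) := by
    intro i
    have := congrArg (fun P => Polynomial.coeff P i) hg
    simp only [coeff_sub, coeff_add, coeff_C_mul, coeff_X_pow, coeff_one] at this
    rw [← this, Polynomial.coeff_one_add_X_pow]
  have hc0 : g.coeff 0 = 0 := by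
    have := hc 0
    have hne : (0 : ℕ) ≠ q := hq.ne_zero.symm
    simp only [Nat.choose_zero_right, Nat.cast_one, if_true, if_neg hne, add_zero, sub_self] at this
    exact (mul_eq_zero.1 this).resolve_left hq0
  have hc1 : g.coeff (q - 1) = 1 := by
    have := hc (q - 1)
    have h3 : Nat.choose q (q - 1) = q := by
      rw [Nat.choose_symm (by omega : 1 ≤ q), Nat.choose_one_right]
    rw [h3, if_neg (by omega), if_neg (by omega), add_zero, sub_zero] at this
    exact mul_left_cancel₀ hq0 (by rw [this, mul_one])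
  have hdeg : g.natDegree ≤ q - 1 := by
    rw [Polynomial.natDegree_le_iff_coeff_eq_zero]
    intro i hi
    have := hc i
    rcases eq_or_lt_of_le (by omega : q ≤ i) with h4 | h4
    · rw [← h4, Nat.choose_self, if_neg hq.ne_zero, if_pos rfl] at this
      simp only [Nat.cast_one, zero_add, sub_self] at this
      rw [← h4]
      exact (mul_eq_zero.1 this).resolve_left hq0
    · rw [Nat.choose_eq_zero_of_lt h4, if_neg (by omega), if_neg (by omega)] at this
      simp only [Nat.cast_zero, add_zero, sub_self] at this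
      exact (mul_eq_zero.1 this).resolve_left hq0
  have hdeg' : g.natDegree = q - 1 := by
    apply le_antisymm hdeg
    apply Polynomial.le_natDegree_of_ne_zero
    rw [hc1]
    exact one_ne_zero
  refine ⟨g, ?_, hdeg', hc0, hg.symm⟩
  rw [Polynomial.Monic, Polynomial.leadingCoeff, hdeg', hc1]

/-! ### Algebraic integers -/

/-- the ring of all algebraic integers -/
abbrev AI : Type := integralClosure ℤ ℂ

theorem exists_root (m : ℕ) (hm : 0 < m) : ∃ z : AI, IsPrimitiveRoot z m := by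
  have h := Complex.isPrimitiveRoot_exp m hm.ne'
  refine ⟨⟨_, h.isIntegral hm⟩, ?_⟩
  exact IsPrimitiveRoot.of_map_of_injective (f := (integralClosure ℤ ℂ).subtype)
    (by exact h) Subtype.val_injective

/-- a field of characteristic `p` below the algebraic integers -/
theorem exists_field (p : ℕ) (hp : p.Prime) : ∃ (K : Type) (_ : Field K) (_ : AI →+* K),
    (p : K) = 0 := by
  have h1 : Ideal.span {(p : AI)} ≠ ⊤ := by
    intro h
    rw [Ideal.span_singleton_eq_top] at h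
    obtain ⟨u, hu⟩ := h.exists_right_inv
    have h2 : (p : ℂ) * (u : ℂ) = 1 := by
      have := congrArg (fun a : AI => (a : ℂ)) hu
      simpa using this
    have hp0 : (p : ℂ) ≠ 0 := by exact_mod_cast hp.ne_zero
    have h3 : (u : ℂ) = algebraMap ℚ ℂ (1 / p) := by
      rw [eq_comm, map_div₀, map_one, map_natCast, div_eq_iff hp0, mul_comm]
      exact h2.symm
    have h4 : IsIntegral ℤ (algebraMap ℚ ℂ (1 / p)) := h3 ▸ u.2
    have h5 : IsIntegral ℤ (1 / p : ℚ) :=
      (isIntegral_algHom_iff (IsScalarTower.toAlgHom ℤ ℚ ℂ) (algebraMap ℚ ℂ).injective).1 h4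
    obtain ⟨k, hk⟩ := IsIntegrallyClosed.isIntegral_iff.1 h5
    have hp0' : (p : ℚ) ≠ 0 := by exact_mod_cast hp.ne_zero
    have h6 : (p : ℤ) * k = 1 := by
      have : (p : ℚ) * (k : ℚ) = 1 := by
        have hk' : (k : ℚ) = 1 / p := by simpa using hk
        rw [hk']
        field_simp
      exact_mod_cast this
    have h7 : (p : ℤ) ∣ 1 := ⟨k, h6.symm⟩
    have h8 : p ∣ 1 := by exact_mod_cast h7
    exact hp.one_lt.ne' (Nat.dvd_one.1 h8)
  obtain ⟨P, hP, hle⟩ := Ideal.exists_le_maximal _ h1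
  let _ : Field (AI ⧸ P) := Ideal.Quotient.field P
  refine ⟨AI ⧸ P, inferInstance, Ideal.Quotient.mk P, ?_⟩
  have h2 : Ideal.Quotient.mk P (p : AI) = 0 :=
    Ideal.Quotient.eq_zero_iff_mem.2 (hle (Ideal.mem_span_singleton_self _))
  simpa using h2

/-- The main counting step: all the roots of unity of order at most `M` are zeros of `g`. -/
theorem count {p q M : ℕ} (hp : p.Prime) (hMp : M < p) {g : ℤ[X]} (hg : g.Monic)
    (hdeg : g.natDegree = q - 1) (hg0 : g.coeff 0 = 0)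
    (h : ∀ m, 1 ≤ m → m ≤ M → ∀ z : AI, z ^ m = 1 → (p : AI) ∣ aeval z g) :
    Phi M + 1 ≤ q - 1 := by
  classical
  obtain ⟨K, _, f, hpK⟩ := exists_field p hp
  have hm0 : ∀ m, 1 ≤ m → m ≤ M → (m : K) ≠ 0 := by
    intro m h1 h2 h3
    have hcop : IsCoprime (m : ℤ) (p : ℤ) := by
      rw [Nat.isCoprime_iff_coprime]
      exact (Nat.Coprime.symm ((Nat.Prime.coprime_iff_not_dvd hp).2
        (Nat.not_dvd_of_pos_of_lt (by omega) (by omega))))
    obtain ⟨a, b, hab⟩ := hcop
    have := congrArg (Int.cast : ℤ → K) hab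
    push_cast at this
    rw [h3, hpK, mul_zero, mul_zero, add_zero] at this
    exact zero_ne_one this
  set G : K[X] := g.map (Int.castRingHom K) with hG
  have hGm : G.Monic := hg.map _
  have hGd : G.natDegree = q - 1 := by rw [hG, hg.natDegree_map, hdeg]
  have hroot : ∀ m, 1 ≤ m → m ≤ M → ∀ z : AI, z ^ m = 1 → G.IsRoot (f z) := by
    intro m h1 h2 z hz
    obtain ⟨c, hc⟩ := h m h1 h2 z hz
    have h3 : f (aeval z g) = 0 := by
      rw [hc, map_mul, map_natCast, hpK, zero_mul]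
    rw [IsRoot, hG, eval_map]
    rw [aeval_def, hom_eval₂] at h3
    have h4 : f.comp (algebraMap ℤ AI) = Int.castRingHom K := Subsingleton.elim _ _
    rwa [h4] at h3
  have hprim : ∀ m, 1 ≤ m → m ≤ M → ∃ z : AI, z ^ m = 1 ∧ IsPrimitiveRoot (f z) m := by
    intro m h1 h2
    obtain ⟨z, hz⟩ := exists_root m h1
    refine ⟨z, hz.pow_eq_one, ?_⟩
    have : NeZero (m : K) := ⟨hm0 m h1 h2⟩
    rw [← isRoot_cyclotomic_iff, ← map_cyclotomic m f, IsRoot, eval_map_apply]
    have := hz.isRoot_cyclotomic h1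
    rw [IsRoot] at this
    rw [this, map_zero]
  let S : Finset K := (Finset.Icc 1 M).biUnion fun m => primitiveRoots m K
  have hScard : S.card = Phi M := by
    rw [Finset.card_biUnion]
    · refine Finset.sum_congr rfl fun m hm => ?_
      rw [Finset.mem_Icc] at hm
      obtain ⟨z, _, hz⟩ := hprim m hm.1 hm.2
      exact hz.card_primitiveRoots
    · intro a ha b hb hab
      rw [Finset.coe_Icc, Set.mem_Icc] at ha hb
      exact IsPrimitiveRoot.disjoint hab
  have h0S : (0 : K) ∉ S := by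
    intro h0
    obtain ⟨m, hm, hm'⟩ := Finset.mem_biUnion.1 h0
    rw [Finset.mem_Icc] at hm
    have h1 := (mem_primitiveRoots hm.1).1 hm'
    have h2 := h1.pow_eq_one
    rw [zero_pow (by omega)] at h2
    exact zero_ne_one h2
  have hsub : insert 0 S ⊆ G.roots.toFinset := by
    intro x hx
    rw [Multiset.mem_toFinset, mem_roots hGm.ne_zero]
    rcases Finset.mem_insert.1 hx with rfl | hx
    · rw [IsRoot, ← coeff_zero_eq_eval_zero, hG, coeff_map, hg0, map_zero]
    · obtain ⟨m, hm, hm'⟩ := Finset.mem_biUnion.1 hx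
      rw [Finset.mem_Icc] at hm
      have h1 := (mem_primitiveRoots hm.1).1 hm'
      obtain ⟨z, hz1, hz⟩ := hprim m hm.1 hm.2
      have : NeZero m := ⟨by omega⟩
      obtain ⟨i, _, hi⟩ := hz.eq_pow_of_pow_eq_one h1.pow_eq_one
      rw [← hi, ← map_pow]
      exact hroot m hm.1 hm.2 _ (by rw [← pow_mul, mul_comm, pow_mul, hz1, one_pow])
  calc Phi M + 1 = (insert 0 S).card := by rw [Finset.card_insert_of_notMem h0S, hScard]
    _ ≤ G.roots.toFinset.card := Finset.card_le_card hsub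
    _ ≤ Multiset.card G.roots := Multiset.toFinset_card_le _
    _ ≤ G.natDegree := card_roots' _
    _ = q - 1 := hGd

/-- the least prime factor -/
theorem key {n q M : ℕ} (hn : 2 ≤ n) (hp : ¬ n.Prime) (hq : q = n.minFac) (hq2 : q ≠ 2)
    (hMq : M < q) (h : ∀ m, 1 ≤ m → m ≤ M * q →
      ((X : (ZMod n)[X]) ^ m - 1) ∣ (1 + X) ^ n - (1 + X ^ n)) : Phi M + 2 ≤ q := by
  have hqp : q.Prime := hq ▸ Nat.minFac_prime (by omega)
  have hqn : q ∣ n := hq ▸ Nat.minFac_dvd n
  have hodd : Odd q := hqp.odd_of_ne_two hq2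
  obtain ⟨g, hg, hdeg, hg0, hgq⟩ := exists_g hqp hq2
  obtain ⟨n₁, hn₁⟩ := hqn
  have hn1 : n₁ ≠ 1 := by
    rintro rfl
    rw [mul_one] at hn₁
    exact hp (hn₁ ▸ hqp)
  have hpp := Nat.minFac_prime hn1
  have hpn : n₁.minFac ∣ n := (Nat.minFac_dvd n₁).trans ⟨q, by rw [hn₁, mul_comm]⟩
  have hqp' : q ≤ n₁.minFac := hq ▸ Nat.minFac_le_of_dvd hpp.two_le hpn
  have h1 := count (p := n₁.minFac) (q := q) (M := M) hpp (by omega) hg hdeg hg0 (by
    intro m hm1 hm2 z hz
    obtain ⟨w, hw⟩ := exists_root q hqp.pos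
    have hcop : Nat.Coprime n m := by
      rw [Nat.coprime_comm]
      by_contra hc
      obtain ⟨l, hl, hlm, hln⟩ := Nat.Prime.not_coprime_iff_dvd.1 hc
      have h2 := Nat.le_of_dvd hm1 hlm
      have h3 : q ≤ l := hq ▸ Nat.minFac_le_of_dvd hl.two_le hln
      omega
    -- `z = y ^ n`
    obtain ⟨k, hk⟩ : ∃ k : ℕ, (n * k) % m = 1 % m := by
      rcases Nat.lt_or_ge 1 m with h1 | h1
      · obtain ⟨k, hk⟩ := Nat.exists_mul_mod_eq_one_of_coprime hcop h1
        exact ⟨k, by rw [hk.2, Nat.mod_eq_of_lt h1]⟩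
      · have h2 : m = 1 := by omega
        exact ⟨0, by rw [h2, Nat.mod_one, Nat.mod_one]⟩
    have hzk : (z ^ k) ^ n = z := by
      rw [← pow_mul, mul_comm k n]
      have h4 : z ^ (n * k) = z ^ ((n * k) % m) := by
        conv_lhs => rw [← Nat.div_add_mod (n * k) m, pow_add, pow_mul, hz, one_pow, one_mul]
      rw [h4, hk]
      have h5 : z ^ 1 = z ^ (1 % m) := by
        conv_lhs => rw [← Nat.div_add_mod 1 m, pow_add, pow_mul, hz, one_pow, one_mul]
      rw [← h5, pow_one]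
    have h6 : (z ^ k) ^ m = 1 := by rw [← pow_mul, mul_comm, pow_mul, hz, one_pow]
    have h7 := step hw hodd ⟨n₁, hn₁⟩ (h m hm1 (hm2.trans (Nat.le_mul_of_pos_right M hqp.pos)))
      (h (m * q) (Nat.mul_pos hm1 hqp.pos) (Nat.mul_le_mul_right q hm2)) h6
    rw [hzk] at h7
    have h8 : (1 + z) ^ q - (1 + z ^ q) = (q : AI) * aeval z g := by
      have := congrArg (aeval z) hgq
      simp only [map_mul, map_sub, map_pow, map_add, map_one, aeval_X, aeval_C] at this
      rw [← this]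
      simp
    rw [h8, hn₁, Nat.cast_mul] at h7
    have hq0 : (q : AI) ≠ 0 := by
      have : (q : ℂ) ≠ 0 := by exact_mod_cast hqp.ne_zero
      intro h0
      apply this
      have := congrArg (fun a : AI => (a : ℂ)) h0
      simpa using this
    have h9 := (mul_dvd_mul_iff_left hq0).1 h7
    exact (Nat.cast_dvd_cast (Nat.minFac_dvd n₁)).trans h9)
  have := hqp.two_le
  omega

/-- The congruence modulo the square of a prime factor. -/
theorem step_sq {A : Type} [CommRing A] {n q m : ℕ} (hqn : q ^ 2 ∣ n)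
    (h1 : ((X : (ZMod n)[X]) ^ m - 1) ∣ (1 + X) ^ n - (1 + X ^ n)) {g : ℤ[X]}
    (hg : C (q : ℤ) * g = (1 + X) ^ q - (1 + X ^ q))
    {z : A} (hz : z ^ m = 1) : ((q ^ 2 : ℕ) : A) ∣ (1 + z ^ n) ^ q - (1 + (z ^ n) ^ q) := by
  set I : Ideal A := Ideal.span {((q ^ 2 : ℕ) : A)} with hI
  have key : ∀ a b : A, ((q ^ 2 : ℕ) : A) ∣ a - b ↔
      Ideal.Quotient.mk I a = Ideal.Quotient.mk I b := by
    intro a b
    rw [Ideal.Quotient.eq, hI, Ideal.mem_span_singleton]
  have hc : ∀ w : A, w ^ m = 1 → Ideal.Quotient.mk I ((1 + w) ^ n) =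
      Ideal.Quotient.mk I (1 + w ^ n) := by
    intro w hw
    rw [← key]
    exact (Nat.cast_dvd_cast hqn).trans (eval_dvd h1 hw)
  -- `(1 + z) ^ q = 1 + z ^ q + q * g z`
  have h2 : (1 + z) ^ q = (1 + z ^ q) + (q : A) * aeval z g := by
    have := congrArg (aeval z) hg
    simp only [map_mul, map_sub, map_pow, map_add, map_one, aeval_X, map_intCast,
      eq_intCast] at this
    have h3 : (q : A) * aeval z g = (1 + z) ^ q - (1 + z ^ q) := by
      simpa using this
    rw [h3]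
    ring
  have h3 : Ideal.Quotient.mk I (((1 + z ^ q) + (q : A) * aeval z g) ^ n) =
      Ideal.Quotient.mk I ((1 + z ^ q) ^ n) := by
    rw [← key]
    obtain ⟨k, hk⟩ := hqn
    have h4 : (q : A) ∣ ((1 + z ^ q) + (q : A) * aeval z g) - (1 + z ^ q) := by
      rw [add_sub_cancel_left]
      exact dvd_mul_right _ _
    have h5 := dvd_sub_pow_of_dvd_sub h4 1
    rw [pow_one] at h5
    have h6 := sub_dvd_pow_sub_pow (((1 + z ^ q) + (q : A) * aeval z g) ^ q) ((1 + z ^ q) ^ q) (q * k)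
    rw [← pow_mul, ← pow_mul, show q * (q * k) = n by rw [hk]; ring] at h6
    have h7 := h5.trans h6
    rw [Nat.cast_pow]
    exact h7
  have hzq : (z ^ q) ^ m = 1 := by rw [← pow_mul, mul_comm, pow_mul, hz, one_pow]
  have h4 := hc _ hzq
  have h5 : Ideal.Quotient.mk I ((1 + z ^ n) ^ q) = Ideal.Quotient.mk I (((1 + z) ^ n) ^ q) := by
    rw [map_pow, ← hc z hz, ← map_pow]
  rw [key, h5, ← pow_mul, mul_comm n q, pow_mul, h2, h3, h4, ← pow_mul, ← pow_mul, mul_comm]

/-- Counting zeros for a prime whose square divides `n`. -/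
theorem key_sq {n q M : ℕ} (hqp : q.Prime) (hq2 : q ≠ 2) (hqn : q ^ 2 ∣ n)
    (hM : M < n.minFac) (h : ∀ m, 1 ≤ m → m ≤ M →
      ((X : (ZMod n)[X]) ^ m - 1) ∣ (1 + X) ^ n - (1 + X ^ n)) : Phi M + 2 ≤ q := by
  obtain ⟨g, hg, hdeg, hg0, hgq⟩ := exists_g hqp hq2
  have hlq : n.minFac ≤ q := Nat.minFac_le_of_dvd hqp.two_le ((dvd_pow_self q (by norm_num)).trans hqn)
  have h1 := count (p := q) (q := q) (M := M) hqp (by omega) hg hdeg hg0 (by
    intro m hm1 hm2 z hz
    have hcop : Nat.Coprime n m := by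
      rw [Nat.coprime_comm]
      by_contra hc
      obtain ⟨l, hl, hlm, hln⟩ := Nat.Prime.not_coprime_iff_dvd.1 hc
      have h2 := Nat.le_of_dvd hm1 hlm
      have h3 : n.minFac ≤ l := Nat.minFac_le_of_dvd hl.two_le hln
      omega
    obtain ⟨k, hk⟩ : ∃ k : ℕ, (n * k) % m = 1 % m := by
      rcases Nat.lt_or_ge 1 m with h1 | h1
      · obtain ⟨k, hk⟩ := Nat.exists_mul_mod_eq_one_of_coprime hcop h1
        exact ⟨k, by rw [hk.2, Nat.mod_eq_of_lt h1]⟩
      · have h2 : m = 1 := by omega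
        exact ⟨0, by rw [h2, Nat.mod_one, Nat.mod_one]⟩
    have hzk : (z ^ k) ^ n = z := by
      rw [← pow_mul, mul_comm k n]
      have h4 : z ^ (n * k) = z ^ ((n * k) % m) := by
        conv_lhs => rw [← Nat.div_add_mod (n * k) m, pow_add, pow_mul, hz, one_pow, one_mul]
      rw [h4, hk]
      have h5 : z ^ 1 = z ^ (1 % m) := by
        conv_lhs => rw [← Nat.div_add_mod 1 m, pow_add, pow_mul, hz, one_pow, one_mul]
      rw [← h5, pow_one]
    have h6 : (z ^ k) ^ m = 1 := by rw [← pow_mul, mul_comm, pow_mul, hz, one_pow]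
    have h7 := step_sq hqn (h m hm1 hm2) hgq h6
    rw [hzk] at h7
    have h8 : (1 + z) ^ q - (1 + z ^ q) = (q : AI) * aeval z g := by
      have := congrArg (aeval z) hgq
      simp only [map_mul, map_sub, map_pow, map_add, map_one, aeval_X, aeval_C] at this
      rw [← this]
      simp
    rw [h8, Nat.cast_pow, pow_two] at h7
    have hq0 : (q : AI) ≠ 0 := by
      have : (q : ℂ) ≠ 0 := by exact_mod_cast hqp.ne_zero
      intro h0
      apply this
      have := congrArg (fun a : AI => (a : ℂ)) h0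
      simpa using this
    exact (mul_dvd_mul_iff_left hq0).1 h7)
  have := hqp.two_le
  omega

/-- Let `n ≥ 2` be composite and `y ≥ 0` a real number such that `(1 + X) ^ n` and `1 + X ^ n` are
congruent modulo `n` and `X ^ r - 1` for all `r` with `1 ≤ r ≤ y`. Then `y ^ 2 < 12 * q ^ 3` for every
prime factor `q` of `n`. For `y = (log n) ^ 2` (logarithm to the base 2) this says that a composite `n`
which satisfies the condition (C) of the problem has no prime factor `q` with
`12 * q ^ 3 ≤ (log n) ^ 4`. -/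
theorem small_prime_factors (n : ℕ) (hn : 2 ≤ n) (hp : ¬ n.Prime) (y : ℝ) (hy : 0 ≤ y)
    (h : ∀ r : ℕ, 1 ≤ r → (r : ℝ) ≤ y →
      ((X : (ZMod n)[X]) ^ r - 1) ∣ (1 + X) ^ n - (1 + X ^ n))
    (q : ℕ) (hq : q.Prime) (hqn : q ∣ n) : y ^ 2 < 12 * (q : ℝ) ^ 3 := by
  set l := n.minFac with hl
  have hlp : l.Prime := Nat.minFac_prime (by omega)
  have hlq : l ≤ q := Nat.minFac_le_of_dvd hq.two_le hqn
  have hlq' : (l : ℝ) ≤ q := by exact_mod_cast hlq
  have hl2 : (2 : ℝ) ≤ l := by exact_mod_cast hlp.two_le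
  suffices H : y ^ 2 < 12 * (l : ℝ) ^ 3 by
    refine H.trans_le ?_
    have := pow_le_pow_left₀ (by linarith) hlq' 3
    linarith
  by_cases hl' : l = 2
  · -- `n` is even
    have h1 : y < 2 := by
      by_contra h1
      have h2 := h 2 (by norm_num) (by push_cast; linarith)
      have h3 := eval_dvd h2 (A := ℤ) (z := -1) (by norm_num)
      have h4 : 2 ∣ n := hl' ▸ hl ▸ Nat.minFac_dvd n
      have h5 : Even n := (even_iff_two_dvd).2 h4
      rw [h5.neg_one_pow, add_neg_cancel, zero_pow (by omega)] at h3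
      have h6 : (n : ℤ) ∣ 2 := by
        have : (0 - (1 + 1) : ℤ) = -2 := by norm_num
        rw [this, dvd_neg] at h3
        exact h3
      have h7 : n ∣ 2 := by exact_mod_cast h6
      have h8 := Nat.le_of_dvd (by norm_num) h7
      have h9 : n = 2 := by omega
      exact hp (h9 ▸ Nat.prime_two)
    have h2 : y ^ 2 < 4 := by nlinarith
    have h3 : (8 : ℝ) ≤ (l : ℝ) ^ 3 := by
      have := pow_le_pow_left₀ (by norm_num) hl2 3
      norm_num at this
      exact this
    linarith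
  · have hlpos : (0 : ℝ) < l := by linarith
    set M := ⌊y / l⌋₊ with hM
    have hM1 : (M : ℝ) ≤ y / l := Nat.floor_le (by positivity)
    have hM2 : y / l < M + 1 := Nat.lt_floor_add_one _
    have hM3 : (M : ℝ) * l ≤ y := (le_div_iff₀ hlpos).1 hM1
    have hM4 : y < (M + 1) * l := (div_lt_iff₀ hlpos).1 hM2
    have hlow : ∀ N : ℕ, N ≤ M → N < l → Phi N + 2 ≤ l := by
      intro N hN hN'
      refine key hn hp hl hl' hN' fun m hm1 hm2 => h m hm1 ?_
      have h1 : (m : ℝ) ≤ N * l := by exact_mod_cast hm2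
      have h2 : (N : ℝ) * l ≤ M * l :=
        mul_le_mul_of_nonneg_right (by exact_mod_cast hN) hlpos.le
      linarith
    have hMl : M + 1 < l := by
      by_contra hc
      have h1 := hlow (l - 1) (by omega) (by have := hlp.two_le; omega)
      have h2 : l - 1 ≤ Phi (l - 1) := by
        unfold Phi
        calc l - 1 = ∑ m ∈ Finset.Icc 1 (l - 1), 1 := by simp
          _ ≤ ∑ m ∈ Finset.Icc 1 (l - 1), Nat.totient m := by
            refine Finset.sum_le_sum fun m hm => ?_
            exact Nat.totient_pos.2 (Finset.mem_Icc.1 hm).1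
      have := hlp.two_le
      omega
    have h1 := hlow M le_rfl (by omega)
    have h2 := sq_le_six_Phi M
    have h3 : (M : ℝ) ^ 2 ≤ 6 * ((l : ℝ) - 2) := by
      have h4 : M ^ 2 + 12 ≤ 6 * l := by omega
      have h5 : (M : ℝ) ^ 2 + 12 ≤ 6 * l := by exact_mod_cast h4
      linarith
    have h4 : ((M : ℝ) + 1) ^ 2 < 12 * l := by
      nlinarith [sq_nonneg ((M : ℝ) - 1)]
    have h5 : y ^ 2 < (((M : ℝ) + 1) * l) ^ 2 := by
      have : (0 : ℝ) ≤ M := Nat.cast_nonneg _
      exact pow_lt_pow_left₀ hM4 hy (by norm_num)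
    calc y ^ 2 < (((M : ℝ) + 1) * l) ^ 2 := h5
      _ = ((M : ℝ) + 1) ^ 2 * (l : ℝ) ^ 2 := by ring
      _ ≤ (12 * l) * (l : ℝ) ^ 2 := mul_le_mul_of_nonneg_right h4.le (by positivity)
      _ = 12 * (l : ℝ) ^ 3 := by ring

/-- even numbers -/
theorem even_case {n : ℕ} (hn : 3 ≤ n) (he : 2 ∣ n) {y : ℝ}
    (h : ∀ r : ℕ, 1 ≤ r → (r : ℝ) ≤ y →
      ((X : (ZMod n)[X]) ^ r - 1) ∣ (1 + X) ^ n - (1 + X ^ n)) : y < 2 := by
  by_contra h1
  have h2 := h 2 (by norm_num) (by push_cast; linarith)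
  have h3 := eval_dvd h2 (A := ℤ) (z := -1) (by norm_num)
  have h5 : Even n := (even_iff_two_dvd).2 he
  rw [h5.neg_one_pow, add_neg_cancel, zero_pow (by omega)] at h3
  have h6 : (n : ℤ) ∣ 2 := by
    have : (0 - (1 + 1) : ℤ) = -2 := by norm_num
    rw [this, dvd_neg] at h3
    exact h3
  have h7 : n ∣ 2 := by exact_mod_cast h6
  have h8 := Nat.le_of_dvd (by norm_num) h7
  omega

theorem le_Phi (x : ℕ) : x ≤ Phi x := by
  unfold Phi
  calc x = ∑ m ∈ Finset.Icc 1 x, 1 := by simp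
    _ ≤ ∑ m ∈ Finset.Icc 1 x, Nat.totient m := by
      refine Finset.sum_le_sum fun m hm => ?_
      exact Nat.totient_pos.2 (Finset.mem_Icc.1 hm).1

end Pool.Agent.J6H83.AK
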